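import Pool.Agent.Helper1.TE.Goals2

/-!
# PROJECT TE, packet FB2
-/

set_option autoImplicit false

namespace Pool.Agent.Helper40.TE

open Pool.Agent.Helper1.TE
open Pool.Agent.Helper65.LinSpace (Ctx)

theorem enc_nat_le {a B : ℕ} (h : a ≤ B) (i : ℕ) : Ctx.enc a i ≤ B := by
  rcases i with _ | i
  · exact h
  · exact Nat.zero_le _

theorem enc_prod_le {α β : Type} [Ctx α] [Ctx β] {B : ℕ} {p : α × β}
    (h1 : ∀ i, Ctx.enc p.1 i ≤ B) (h2 : ∀ i, Ctx.enc p.2 i ≤ B) (i : ℕ) :
    Ctx.enc p i ≤ B := by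
  show (if i < Ctx.ar α then Ctx.enc p.1 i else Ctx.enc p.2 (i - Ctx.ar α)) ≤ B
  split_ifs
  · exact h1 _
  · exact h2 _

theorem enc_hdr_le {B mo h b u W U : ℕ} (h1 : mo ≤ B) (h2 : h ≤ B) (h3 : b ≤ B) (h4 : u ≤ B)
    (h5 : W ≤ B) (h6 : U ≤ B) (i : ℕ) : Ctx.enc (hdr mo h b u W U) i ≤ B := by
  have h0 : (0 : ℕ) ≤ B := Nat.zero_le _
  unfold hdr
  refine enc_prod_le (enc_prod_le (enc_nat_le h1) (enc_prod_le (enc_nat_le h2)
    (enc_prod_le (enc_nat_le h3) (enc_prod_le (enc_nat_le h4) (enc_prod_le (enc_nat_le h5)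
      (enc_nat_le h6)))))) (enc_prod_le (enc_prod_le (enc_nat_le h0) (enc_prod_le (enc_nat_le h0)
        (enc_nat_le h0))) (enc_prod_le (enc_prod_le (enc_nat_le h0) (enc_nat_le h0))
          (enc_prod_le (enc_prod_le (enc_nat_le h0) (enc_nat_le h0))
            (enc_prod_le (enc_nat_le h0) (enc_nat_le h0))))) i

theorem lt_len {w : List Bool} {i : ℕ} {x : Bool} (h : w[i]? = some x) : i < w.length := by
  obtain ⟨h1, -⟩ := List.getElem?_eq_some_iff.1 h
  exact h1

theorem pre_le {w : List Bool} {h b : ℕ} (hp : Pre w h b) : h < w.length ∧ h + b < w.length := by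
  obtain ⟨-, h1, h2⟩ := hp
  refine ⟨lt_len h1, ?_⟩
  rcases Nat.eq_zero_or_pos b with rfl | hb
  · exact lt_len h1
  · have := lt_len (h2 (b - 1) (by omega))
    omega

theorem pow_le {w : List Bool} {u : ℕ} (h : ∀ t < u, 2 ^ t < w.length) :
    2 ^ u ≤ 2 * w.length + 1 := by
  rcases u with _ | u
  · simp
  · have := h u (Nat.lt_succ_self u)
    rw [pow_succ]
    omega

theorem gFB2 : GoalFB2 := by
  intro ok tst mal w x hF hx i
  cases hx with
  | rej => exact enc_hdr_le (by omega) (by omega) (by omega) (by omega) (by omega) (by omega) i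
  | m0 h h1 =>
    have hh : h ≤ w.length := by
      rcases Nat.eq_zero_or_pos h with rfl | hp
      · exact Nat.zero_le _
      · have := lt_len (h1 (h - 1) (by omega))
        omega
    exact enc_hdr_le (by omega) (by omega) (by omega) (by omega) (by omega) (by omega) i
  | m1 h b h1 =>
    have := pre_le h1
    exact enc_hdr_le (by omega) (by omega) (by omega) (by omega) (by omega) (by omega) i
  | m2 h b u h1 hu h2 =>
    have := pre_le h1.1
    have := pow_le h2
    exact enc_hdr_le (by omega) (by omega) (by omega) (by omega) (by omega) (by omega) i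
  | m3 h b u h1 hu h2 h3 =>
    have := pre_le h1.1
    have := pow_le h3
    exact enc_hdr_le (by omega) (by omega) (by omega) (by omega) (by omega) (by omega) i
  | m4 h b h1 h2 h3 =>
    have := pre_le h1.1
    exact enc_hdr_le (by omega) (by omega) (by omega) (by omega) (by omega) (by omega) i
  | m5 h b h1 h2 h3 h4 =>
    have := pre_le h1.1
    exact enc_hdr_le (by omega) (by omega) (by omega) (by omega) (by omega) (by omega) i
  | m6 h b u h1 hu => exact absurd ⟨h, b, h1⟩ hF
  | m7 h b u τ g v C h1 hτ hu hg hv hC => exact absurd ⟨h, b, h1⟩ hF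
  | m8 h1 => exact enc_hdr_le (by omega) (by omega) (by omega) (by omega) (by omega) (by omega) i

end Pool.Agent.Helper40.TE
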