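import Pool.Agent.Helper1.TE.Goals3

/-!
# PROJECT TE (MP_8b4d68_lc): packet TE-FIN
-/

namespace Pool.Agent.Helper40.TE

open Pool.Agent.Helper1.TE
open Pool.Agent.Helper65.LinSpace (dig tab nrec ifz eq01 le01 lt01 capPow Ctx LS)

theorem within_mono {k : ℕ} (M : NTM k) (w : List Bool) {B B' : ℝ} (h : B ≤ B')
    (hM : M.Within w B) : M.Within w B' := fun c hc i => (hM c hc i).trans h

theorem langM_uspace (hMOK : MachineOK) (ok : ℕ → ℕ → ℕ) (tst : ℕ → ℕ) (mal : ℕ)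
    (hok : LS (fun x : ℕ × ℕ => ok x.1 x.2)) (htst : LS tst) (s : ℕ → ℝ) (hs : ∀ n, 0 ≤ s n)
    (C₁ C₂ : ℝ) (hC₁ : 0 ≤ C₁)
    (h₁ : ∀ (w : List Bool) (h b : ℕ), Full ok w h b → (SpB h b : ℝ) ≤ C₁ * s w.length)
    (h₂ : ∀ n : ℕ, ((Nat.log 2 (n + 1) + 5 : ℕ) : ℝ) ≤ C₂ * (s n + 1)) :
    LangM ok tst mal ∈ USPACE s := by
  obtain ⟨k, M, c, hM⟩ := hMOK ok tst mal hok htst
  have hC₂ : 0 ≤ C₂ := by
    have := h₂ 0
    have h0 := hs 0
    by_contra hneg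
    push Not at hneg
    have h3 : (0 : ℝ) ≤ ((Nat.log 2 (0 + 1) + 5 : ℕ) : ℝ) := Nat.cast_nonneg _
    have h4 : C₂ * (s 0 + 1) < 0 := mul_neg_of_neg_of_pos hneg (by linarith)
    linarith
  refine ⟨k, M, c * (C₁ + 1 + 2 * C₂), fun w => ?_⟩
  obtain ⟨hacc, hun, hfull, hnot⟩ := hM w
  refine ⟨hacc.symm, ?_, hun⟩
  have hsw := hs w.length
  have hc0 : (0 : ℝ) ≤ c := Nat.cast_nonneg c
  by_cases hF : ∃ h b, Full ok w h b
  · obtain ⟨h, b, hF⟩ := hF
    refine within_mono M w ?_ (hfull h b hF)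
    have h3 := h₁ w h b hF
    push_cast
    rw [mul_assoc]
    refine mul_le_mul_of_nonneg_left ?_ hc0
    nlinarith [mul_nonneg hC₂ hsw, mul_nonneg hC₁ hsw]
  · refine within_mono M w ?_ (hnot hF)
    have h3 := h₂ w.length
    push_cast at h3 ⊢
    rw [mul_assoc]
    refine mul_le_mul_of_nonneg_left ?_ hc0
    have h5 : (0 : ℝ) ≤ (Nat.log 2 (w.length + 1) : ℝ) := Nat.cast_nonneg _
    nlinarith [mul_nonneg hC₂ hsw, mul_nonneg hC₁ hsw]

theorem ls_tst1 : LS (fun v : ℕ => eq01 v 1) := by fun_prop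

theorem ls_tst2 : LS (fun v : ℕ => 1 - eq01 v 1) := by fun_prop

/-- Packet TE-FIN. -/
theorem gFIN : GoalFIN := by
  intro hMOK hFU hLG hPS hAS1 hAS2 hAS3
  obtain ⟨CP, hCP⟩ := hPS
  obtain ⟨CA, hCA0, hCA⟩ := hAS3
  have hX0 : ∀ h b : ℕ, (0 : ℝ) ≤ h + b + √(h * b * Real.log b) := fun h b => by positivity
  have hSp : ∀ h b : ℕ, 1 ≤ h → 1 ≤ b →
      (SpB h b : ℝ) ≤ |CP| * (h + b + √(h * b * Real.log b)) := fun h b hh hb =>
    (hCP h b hh hb).trans (mul_le_mul_of_nonneg_right (le_abs_self CP) (hX0 h b))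
  refine ⟨?_, fun D => ?_⟩
  · obtain ⟨C1, hC10, hC1⟩ := hAS1
    have hs : ∀ n : ℕ, (0 : ℝ) ≤ Real.log n * √(Real.log (Real.log n)) := fun n =>
      mul_nonneg (Real.log_natCast_nonneg n) (Real.sqrt_nonneg _)
    have key : ∀ (tst : ℕ → ℕ) (mal : ℕ), LS tst →
        LangM (fun _ _ => 1) tst mal ∈
          USPACE (fun n => Real.log n * √(Real.log (Real.log n))) := fun tst mal htst => by
      refine langM_uspace hMOK (fun _ _ => 1) tst mal (LS.const 1) htst _ hs (|CP| * C1) CA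
        (mul_nonneg (abs_nonneg _) hC10) (fun w h b hF => ?_) (fun n => (hCA n).1)
      refine (hSp h b hF.1.2.2.1 hF.1.2.2.2.1).trans ?_
      exact (mul_le_mul_of_nonneg_left (hC1 _ w h b hF) (abs_nonneg _)).trans_eq
        (mul_assoc _ _ _).symm
    obtain ⟨e1, e2⟩ := hLG hFU (fun _ _ => 1) Set.univ (fun h b => by simp)
    rw [e2, e1]
    exact ⟨key _ 0 ls_tst1, key _ 1 ls_tst2⟩
  · obtain ⟨C1, hC10, hC1⟩ := hAS2 D
    have hs : ∀ n : ℕ, (0 : ℝ) ≤ Real.log n := fun n => Real.log_natCast_nonneg n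
    have hokD : ∀ h b : ℕ, le01 (b * Nat.log 2 b) (D * h) ≠ 0 ↔ b * Nat.log 2 b ≤ D * h :=
      fun h b => by
        unfold le01
        split_ifs with hle
        · simp [hle]
        · simp [hle]
    have hok : LS (fun x : ℕ × ℕ => le01 (x.2 * Nat.log 2 x.2) (D * x.1)) := by fun_prop
    have key : ∀ (tst : ℕ → ℕ) (mal : ℕ), LS tst →
        LangM (fun h b => le01 (b * Nat.log 2 b) (D * h)) tst mal ∈
          USPACE (fun n => Real.log n) := fun tst mal htst => by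
      refine langM_uspace hMOK (fun h b => le01 (b * Nat.log 2 b) (D * h)) tst mal hok htst _ hs
        (|CP| * C1) CA (mul_nonneg (abs_nonneg _) hC10) (fun w h b hF => ?_) (fun n => (hCA n).2)
      refine (hSp h b hF.1.2.2.1 hF.1.2.2.2.1).trans ?_
      exact (mul_le_mul_of_nonneg_left
        (hC1 _ w h b hF ((hokD h b).1 hF.1.2.2.2.2)) (abs_nonneg _)).trans_eq
        (mul_assoc _ _ _).symm
    obtain ⟨e1, e2⟩ := hLG hFU (fun h b => le01 (b * Nat.log 2 b) (D * h))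
      {x | x.2 * Nat.log 2 x.2 ≤ D * x.1} (fun h b => by
        rw [hokD h b]
        rfl)
    rw [e2, e1]
    exact ⟨key _ 0 ls_tst1, key _ 1 ls_tst2⟩

end Pool.Agent.Helper40.TE
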